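import Mathlib
import Pool.Agent.J4.H90.CBS.Upper

/-!
# Height versus greedy path in the critical beta-splitting tree

`E[L*_n] - E[L⁺_n]` is of order exactly `log² n`.
-/

namespace Pool.Agent.Results.MP_ce738d_pr.HeightVersusGreedy

open Filter Topology Asymptotics Pool.Agent.R982.CBS Pool.Agent.J4.H90.CBS BinaryTree

/-- The expected height `E[L*_n]` of `DTCS(n)`: the height of a tree is the maximum of the depths
of its leaves. -/
noncomputable def meanHeight (n : ℕ) : ℝ := expect n (fun t => (treeHeight t : ℝ))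

lemma meanHeight_succ (N : ℕ) : meanHeight (N + 1) = Ht N := rfl

lemma meanGreedy_succ (N : ℕ) : meanGreedy (N + 1) = G N := rfl

lemma log_tendsto : Tendsto (fun N : ℕ => Real.log ((N : ℝ) + 1)) atTop atTop :=
  Real.tendsto_log_atTop.comp (tendsto_atTop_add_const_right _ _ tendsto_natCast_atTop_atTop)

lemma H_div : Tendsto (fun N : ℕ => H N / Real.log ((N : ℝ) + 1)) atTop (𝓝 1) := by
  have h1 := Real.tendsto_harmonic_sub_log_add_one
  have h2 : Tendsto (fun N : ℕ => ((harmonic N : ℝ) - Real.log ((N : ℝ) + 1))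
      / Real.log ((N : ℝ) + 1)) atTop (𝓝 0) := h1.div_atTop log_tendsto
  have h3 : Tendsto (fun N : ℕ => 1 + ((harmonic N : ℝ) - Real.log ((N : ℝ) + 1))
      / Real.log ((N : ℝ) + 1)) atTop (𝓝 (1 + 0)) := tendsto_const_nhds.add h2
  rw [add_zero] at h3
  refine h3.congr' ?_
  filter_upwards [log_tendsto.eventually_gt_atTop 0] with N hN
  rw [H_eq_harmonic]
  field_simp
  ring

lemma G_div : Tendsto (fun N : ℕ => G N / Real.log ((N : ℝ) + 1) ^ 2) atTop
    (𝓝 (6 / Real.pi ^ 2)) := by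
  have h := G_asymp.mul (H_div.pow 2)
  have e : 1 / (2 * (Real.pi ^ 2 / 12)) * 1 ^ 2 = 6 / Real.pi ^ 2 := by
    have := Real.pi_pos
    field_simp
    ring
  rw [e] at h
  refine h.congr' ?_
  filter_upwards [eventually_ge_atTop 1] with N hN
  have hH := H_pos hN
  rw [div_pow]
  field_simp

lemma mu_lt : 6 / Real.pi ^ 2 < 0.61 := by
  have h := Real.pi_gt_d4
  rw [div_lt_iff₀ (by positivity)]
  nlinarith

lemma variance_small : ∀ᶠ N : ℕ in atTop,
    Q N - G N ^ 2 ≤ 0.00000025 * Real.log ((N : ℝ) + 1) ^ 4 := by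
  have hmu := mu_lt
  have hmu0 : 0 < 6 / Real.pi ^ 2 := by have := Real.pi_pos; positivity
  obtain ⟨μ, hμ⟩ : ∃ μ, μ = 6 / Real.pi ^ 2 := ⟨_, rfl⟩
  rw [← hμ] at hmu hmu0
  obtain ⟨D, hD⟩ := Q_upper (c := μ + 0.00000001) (by rw [hμ]; linarith)
  have hG := G_div
  rw [← hμ] at hG
  set c := μ + 0.00000001 with hc
  have hinv : Tendsto (fun N : ℕ => (Real.log ((N : ℝ) + 1))⁻¹) atTop (𝓝 0) :=
    tendsto_inv_atTop_zero.comp log_tendsto
  have h1 : Tendsto (fun N : ℕ => c ^ 2 * (H N / Real.log ((N : ℝ) + 1)) ^ 4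
      + 24 * c ^ 2 * (H N / Real.log ((N : ℝ) + 1)) ^ 3 * (Real.log ((N : ℝ) + 1))⁻¹
      + D * (Real.log ((N : ℝ) + 1))⁻¹ ^ 4
      - (G N / Real.log ((N : ℝ) + 1) ^ 2) ^ 2) atTop
      (𝓝 (c ^ 2 * 1 ^ 4 + 24 * c ^ 2 * 1 ^ 3 * 0 + D * 0 ^ 4 - μ ^ 2)) :=
    ((((H_div.pow 4).const_mul _).add (((H_div.pow 3).const_mul _).mul hinv)).add
      ((hinv.pow 4).const_mul _)).sub (hG.pow 2)
  have h2 : c ^ 2 * 1 ^ 4 + 24 * c ^ 2 * 1 ^ 3 * 0 + D * 0 ^ 4 - μ ^ 2 < 0.00000025 := by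
    rw [hc]
    norm_num
    nlinarith
  filter_upwards [h1.eventually (eventually_lt_nhds h2), log_tendsto.eventually_gt_atTop 0]
    with N hN hpos
  have h3 := hD N
  have h4 : c ^ 2 * (H N / Real.log ((N : ℝ) + 1)) ^ 4
      + 24 * c ^ 2 * (H N / Real.log ((N : ℝ) + 1)) ^ 3 * (Real.log ((N : ℝ) + 1))⁻¹
      + D * (Real.log ((N : ℝ) + 1))⁻¹ ^ 4
      - (G N / Real.log ((N : ℝ) + 1) ^ 2) ^ 2
      = (c ^ 2 * H N ^ 4 + 24 * c ^ 2 * H N ^ 3 + D - G N ^ 2) / Real.log ((N : ℝ) + 1) ^ 4 := by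
    field_simp
  rw [h4, div_lt_iff₀ (by positivity)] at hN
  linarith

theorem diff_lower : ∀ᶠ N : ℕ in atTop,
    0.00025 * Real.log ((N : ℝ) + 1) ^ 2 ≤ Ht N - G N := by
  filter_upwards [variance_small, tail_lower, log_tendsto.eventually_gt_atTop 0,
    G_div.eventually (eventually_lt_nhds mu_lt)] with N h1 h2 h3 h4
  rw [div_lt_iff₀ (by positivity)] at h4
  set ℓ := Real.log ((N : ℝ) + 1) with hℓ
  have h5 := diff_ge N (a := 0.62 * ℓ ^ 2) (lam := 0.0005 * ℓ ^ 2) (by positivity)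
  have h6 : (0.075 : ℝ) * (0.62 * ℓ ^ 2 - 0.61 * ℓ ^ 2)
      ≤ E N (fun t => if 0.62 * ℓ ^ 2 ≤ treeHeight t then 1 else 0) * (0.62 * ℓ ^ 2 - G N) := by
    apply mul_le_mul h2 (by linarith) (by nlinarith [sq_nonneg ℓ])
    linarith
  have h7 : (Q N - G N ^ 2) / (2 * (0.0005 * ℓ ^ 2)) ≤ 0.00025 * ℓ ^ 2 := by
    rw [div_le_iff₀ (by positivity)]
    refine h1.trans (le_of_eq ?_)
    ring
  nlinarith [sq_nonneg ℓ]

theorem diff_upper : ∀ᶠ N : ℕ in atTop,
    Ht N - G N ≤ 8 * Real.log ((N : ℝ) + 1) ^ 2 := by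
  have h2 : (1 : ℝ) < 2 := by norm_num
  filter_upwards [eventually_ge_atTop 1, log_tendsto.eventually_gt_atTop 0,
    H_div.eventually (eventually_lt_nhds h2)] with N h1 h3 h4
  rw [div_lt_iff₀ h3] at h4
  have h5 := Ht_upper N h1
  have h6 : 0 ≤ G N := by
    have h := E_mono N (f := fun _ => (0 : ℝ)) (g := fun t => (greedyLength t : ℝ))
      (fun t => by positivity)
    rw [E_const] at h
    exact h
  nlinarith

/-- The difference between the expected height and the expected greedy path length is of order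
exactly `log² n`. -/
theorem result :
    (fun n : ℕ => meanHeight n - meanGreedy n) =Θ[atTop] (fun n : ℕ => Real.log n ^ 2) := by
  have hlow : ∀ᶠ n : ℕ in atTop,
      0.00025 * Real.log (n : ℝ) ^ 2 ≤ meanHeight n - meanGreedy n := by
    obtain ⟨N0, h⟩ := eventually_atTop.mp diff_lower
    refine eventually_atTop.mpr ⟨N0 + 1, fun n hn => ?_⟩
    obtain ⟨N, rfl⟩ : ∃ N, n = N + 1 := ⟨n - 1, by omega⟩
    rw [meanHeight_succ, meanGreedy_succ]
    push_cast
    exact h N (by omega)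
  have hup : ∀ᶠ n : ℕ in atTop,
      meanHeight n - meanGreedy n ≤ 8 * Real.log (n : ℝ) ^ 2 := by
    obtain ⟨N0, h⟩ := eventually_atTop.mp diff_upper
    refine eventually_atTop.mpr ⟨N0 + 1, fun n hn => ?_⟩
    obtain ⟨N, rfl⟩ : ∃ N, n = N + 1 := ⟨n - 1, by omega⟩
    rw [meanHeight_succ, meanGreedy_succ]
    push_cast
    exact h N (by omega)
  constructor
  · refine IsBigO.of_bound 8 ?_
    filter_upwards [hlow, hup] with n h1 h2
    have h3 := sq_nonneg (Real.log (n : ℝ))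
    have h4 : 0 ≤ meanHeight n - meanGreedy n := by linarith
    rw [Real.norm_eq_abs, Real.norm_eq_abs, abs_of_nonneg h4, abs_of_nonneg h3]
    exact h2
  · refine IsBigO.of_bound 4000 ?_
    filter_upwards [hlow] with n h1
    have h3 := sq_nonneg (Real.log (n : ℝ))
    have h4 : 0 ≤ meanHeight n - meanGreedy n := by linarith
    rw [Real.norm_eq_abs, Real.norm_eq_abs, abs_of_nonneg h3, abs_of_nonneg h4]
    linarith

end Pool.Agent.Results.MP_ce738d_pr.HeightVersusGreedy
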